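import Pool.Agent.W516.CMF.Defs

/-!
# Project CMF, part DIM
-/

set_option autoImplicit false

namespace Pool.Agent.W247.CMF

open Module TensorProduct Pool.Agent.W516.CMF

section

variable {k F W : Type} [Field k] [Field F] [Algebra k F] [Algebra k ℝ]
    [AddCommGroup W] [Module k W] [Module F W] [IsScalarTower k F W]

lemma act_tmul (r : ℝ) (a : F) (s : ℝ) (w : W) :
    act k F W (r ⊗ₜ[k] a) (s ⊗ₜ[k] w) = (r * s) ⊗ₜ[k] (a • w) := by
  unfold act
  rw [LinearMap.liftBaseChange_tmul, LinearMap.smul_apply]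
  change r • ((Algebra.lsmul k k W a).baseChange ℝ (s ⊗ₜ[k] w)) = _
  rw [LinearMap.baseChange_tmul, TensorProduct.smul_tmul', smul_eq_mul]
  rfl

lemma act_mul_apply (x y : ℝ ⊗[k] F) (z : ℝ ⊗[k] W) :
    act k F W (x * y) z = act k F W x (act k F W y z) := by
  induction x using TensorProduct.induction_on with
  | zero => simp
  | add x₁ x₂ h₁ h₂ => rw [add_mul, map_add, map_add, LinearMap.add_apply, LinearMap.add_apply, h₁, h₂]
  | tmul r a =>
    induction y using TensorProduct.induction_on with
    | zero => simp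
    | add y₁ y₂ h₁ h₂ =>
      rw [mul_add, map_add, map_add, LinearMap.add_apply, LinearMap.add_apply, map_add, h₁, h₂]
    | tmul s b =>
      induction z using TensorProduct.induction_on with
      | zero => simp
      | add z₁ z₂ h₁ h₂ => rw [map_add, map_add, map_add, h₁, h₂]
      | tmul t w =>
        rw [Algebra.TensorProduct.tmul_mul_tmul, act_tmul, act_tmul, act_tmul, mul_assoc, mul_smul]

lemma act_one_smul (r : ℝ) (z : ℝ ⊗[k] W) : act k F W (r ⊗ₜ[k] (1 : F)) z = r • z := by
  induction z using TensorProduct.induction_on with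
  | zero => simp
  | add z₁ z₂ h₁ h₂ => rw [map_add, smul_add, h₁, h₂]
  | tmul t w => rw [act_tmul, one_smul, TensorProduct.smul_tmul', smul_eq_mul]

/-- coordinates commute with the action -/
lemma coord_act (φ : W →ₗ[F] F) (x : ℝ ⊗[k] F) (z : ℝ ⊗[k] W) :
    (φ.restrictScalars k).baseChange ℝ (act k F W x z) = x * (φ.restrictScalars k).baseChange ℝ z := by
  induction x using TensorProduct.induction_on with
  | zero => simp
  | add x₁ x₂ h₁ h₂ => rw [add_mul, map_add, LinearMap.add_apply, map_add, h₁, h₂]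
  | tmul r a =>
    induction z using TensorProduct.induction_on with
    | zero => simp
    | add z₁ z₂ h₁ h₂ => rw [map_add, map_add, map_add, mul_add, h₁, h₂]
    | tmul t w =>
      rw [act_tmul, LinearMap.baseChange_tmul, LinearMap.baseChange_tmul,
        Algebra.TensorProduct.tmul_mul_tmul]
      congr 1
      simp

variable [FiniteDimensional k F] [FiniteDimensional k W]

lemma dim_eq (σ : F →ₐ[k] ℝ) (ε : ℝ ⊗[k] F) (h0 : ε ≠ 0)
    (h1 : ∀ a : F, ((1 : ℝ) ⊗ₜ[k] a) * ε = ((σ a) ⊗ₜ[k] (1 : F)) * ε) :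
    finrank ℝ (LinearMap.range (act k F W ε)) = finrank F W := by
  classical
  have : Module.Finite F W := Module.Finite.of_restrictScalars_finite k F W
  let b := Module.finBasis F W
  let v : Fin (finrank F W) → ℝ ⊗[k] W := fun j => act k F W ε ((1 : ℝ) ⊗ₜ[k] b j)
  have hmul : ∀ (s : ℝ) (a : F) (w : W), act k F W ε (s ⊗ₜ[k] (a • w)) =
      (s * σ a) • act k F W ε ((1 : ℝ) ⊗ₜ[k] w) := by
    intro s a w
    have e1 : (s ⊗ₜ[k] (a • w) : ℝ ⊗[k] W) = s • act k F W ((1 : ℝ) ⊗ₜ[k] a) ((1 : ℝ) ⊗ₜ[k] w) := by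
      rw [act_tmul, TensorProduct.smul_tmul', smul_eq_mul, mul_one, mul_one]
    rw [e1, map_smul, ← act_mul_apply, mul_comm ε, h1, act_mul_apply, act_one_smul, smul_smul]
  have hspan : LinearMap.range (act k F W ε) = Submodule.span ℝ (Set.range v) := by
    apply le_antisymm
    · rintro _ ⟨z, rfl⟩
      induction z using TensorProduct.induction_on with
      | zero => simp
      | add z₁ z₂ h₁ h₂ =>
        rw [map_add]
        exact Submodule.add_mem _ h₁ h₂
      | tmul s w =>
        rw [← b.sum_repr w, TensorProduct.tmul_sum, map_sum]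
        refine Submodule.sum_mem _ fun j _ => ?_
        rw [hmul]
        exact Submodule.smul_mem _ _ (Submodule.subset_span ⟨j, rfl⟩)
    · rw [Submodule.span_le]
      rintro _ ⟨j, rfl⟩
      exact ⟨_, rfl⟩
  have hli : LinearIndependent ℝ v := by
    rw [Fintype.linearIndependent_iff]
    intro c hc j
    have h2 := congrArg ((b.coord j).restrictScalars k |>.baseChange ℝ) hc
    rw [map_sum, map_zero, Finset.sum_eq_single j] at h2
    · rw [map_smul, coord_act, LinearMap.baseChange_tmul] at h2
      have e : ((b.coord j).restrictScalars k) (b j) = (1 : F) := by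
        simp
      rw [e, ← Algebra.TensorProduct.one_def, mul_one] at h2
      exact (smul_eq_zero.1 h2).resolve_right h0
    · intro i _ hij
      rw [map_smul, coord_act, LinearMap.baseChange_tmul]
      have e : ((b.coord j).restrictScalars k) (b i) = (0 : F) := by
        simp [Finsupp.single_apply, hij]
      rw [e, TensorProduct.tmul_zero, mul_zero, smul_zero]
    · intro h
      exact absurd (Finset.mem_univ _) h
  rw [hspan, finrank_span_eq_card hli, Fintype.card_fin]

omit [FiniteDimensional k W] in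
lemma onto (σ : F →ₐ[k] ℝ) (ε : ℝ ⊗[k] F) (h0 : ε ≠ 0)
    (h1 : ∀ a : F, ((1 : ℝ) ⊗ₜ[k] a) * ε = ((σ a) ⊗ₜ[k] (1 : F)) * ε) (a : F) :
    ∃ lam : ℝ →ₗ[k] k, (TensorProduct.lid k F) (LinearMap.rTensor F lam ε) = a := by
  classical
  -- a nonzero value
  obtain ⟨lam0, hl⟩ : ∃ lam : ℝ →ₗ[k] k, (TensorProduct.lid k F) (LinearMap.rTensor F lam ε) ≠ 0 := by
    by_contra hne
    push_neg at hne
    apply h0
    let c := Module.finBasis k F
    obtain ⟨x, hx⟩ : ∃ x : Fin (finrank k F) → ℝ, ε = ∑ j, x j ⊗ₜ[k] c j := by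
      clear hne h1 h0
      induction ε using TensorProduct.induction_on with
      | zero => exact ⟨0, by simp⟩
      | add e₁ e₂ h₁ h₂ =>
        obtain ⟨x₁, rfl⟩ := h₁
        obtain ⟨x₂, rfl⟩ := h₂
        refine ⟨x₁ + x₂, ?_⟩
        rw [← Finset.sum_add_distrib]
        refine Finset.sum_congr rfl fun j _ => ?_
        rw [Pi.add_apply, TensorProduct.add_tmul]
      | tmul r g =>
        refine ⟨fun j => c.repr g j • r, ?_⟩
        conv_lhs => rw [← c.sum_repr g]
        rw [TensorProduct.tmul_sum]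
        refine Finset.sum_congr rfl fun j _ => ?_
        rw [TensorProduct.tmul_smul, TensorProduct.smul_tmul']
    have hx0 : ∀ j, x j = 0 := by
      intro j
      rw [← Module.forall_dual_apply_eq_zero_iff k]
      intro lam
      have h2 := hne lam
      rw [hx, map_sum, map_sum] at h2
      simp only [LinearMap.rTensor_tmul, TensorProduct.lid_tmul] at h2
      exact (Fintype.linearIndependent_iff.1 c.linearIndependent) _ h2 j
    rw [hx]
    simp [hx0]
  have hmul : ∀ (lam : ℝ →ₗ[k] k) (a : F), (TensorProduct.lid k F)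
      (LinearMap.rTensor F (lam ∘ₗ LinearMap.mulLeft k (σ a)) ε) =
        a * (TensorProduct.lid k F) (LinearMap.rTensor F lam ε) := by
    intro lam a
    have e1 : ∀ z : ℝ ⊗[k] F, LinearMap.rTensor F (LinearMap.mulLeft k (σ a)) z = ((σ a) ⊗ₜ[k] (1 : F)) * z := by
      intro z
      induction z using TensorProduct.induction_on with
      | zero => simp
      | add z₁ z₂ h₁ h₂ => rw [map_add, mul_add, h₁, h₂]
      | tmul t g =>
        rw [LinearMap.rTensor_tmul, Algebra.TensorProduct.tmul_mul_tmul, one_mul, LinearMap.mulLeft_apply]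
    have e2 : ∀ z : ℝ ⊗[k] F, (TensorProduct.lid k F) (LinearMap.rTensor F lam (((1 : ℝ) ⊗ₜ[k] a) * z)) =
        a * (TensorProduct.lid k F) (LinearMap.rTensor F lam z) := by
      intro z
      induction z using TensorProduct.induction_on with
      | zero => simp
      | add z₁ z₂ h₁ h₂ => rw [mul_add, map_add, map_add, map_add, map_add, mul_add, h₁, h₂]
      | tmul t g =>
        rw [Algebra.TensorProduct.tmul_mul_tmul, one_mul, LinearMap.rTensor_tmul, LinearMap.rTensor_tmul,
          TensorProduct.lid_tmul, TensorProduct.lid_tmul, mul_smul_comm]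
    rw [LinearMap.rTensor_comp, LinearMap.comp_apply, e1, ← h1, e2]
  refine ⟨lam0 ∘ₗ LinearMap.mulLeft k (σ (a * ((TensorProduct.lid k F) (LinearMap.rTensor F lam0 ε))⁻¹)), ?_⟩
  rw [hmul, mul_assoc, inv_mul_cancel₀ hl, mul_one]

end

theorem T_DIM : Pool.Agent.W516.CMF.S_DIM := by
  intro k F W _ _ _ _ _ _ _ _ _ _ _
  refine ⟨act_tmul, fun x y => ?_, fun σ ε h0 _ h1 => ⟨dim_eq σ ε h0 h1, onto σ ε h0 h1⟩⟩
  exact LinearMap.ext fun z => act_mul_apply x y z

end Pool.Agent.W247.CMF

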